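import Mathlib
import Pool.Agent.Y512.Plank.AnnE

set_option autoImplicit false

/-!
# MP_4a0204_co: planks and ellipses with a small hole, with an explicit constant

Let `E` be an ellipse and remove from it a homothetic copy of ratio at most `10⁻⁷⁰` that lies in its
interior. For every finite family of planks that covers the rest the widths, each measured relative
to the width of `E` in the direction of the plank, add up to at least `1`; in particular the widths
add up to at least the minimal width of `E`, which is `2` if `E` is the unit disc.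
-/

open Set Metric

namespace Pool.Agent.Results.MP_4a0204_co.EllipseAnnulus

/-- The Euclidean plane. -/
abbrev E2 := EuclideanSpace ℝ (Fin 2)

/-- `P` is the plank of width `w > 0` with the unit normal vector `u`, the closed region between
the parallel lines `x · u = a` and `x · u = a + w`. -/
def IsPlank (P : Set E2) (u : E2) (w : ℝ) : Prop :=
  0 < w ∧ ‖u‖ = 1 ∧ ∃ a : ℝ, P = {x : E2 | a ≤ inner ℝ x u ∧ inner ℝ x u ≤ a + w}

/-- The width of the set `E` in the direction `u`. -/
noncomputable def width (E : Set E2) (u : E2) : ℝ :=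
  sSup ((fun x : E2 => (inner ℝ x u : ℝ)) '' E) - sInf ((fun x : E2 => (inner ℝ x u : ℝ)) '' E)

/-- **Main theorem.** `E` is an arbitrary ellipse, the image of the closed unit disc under the
invertible affine map `x ↦ A x + b`; `H` is a homothetic copy of `E` of ratio `ε ≤ 10⁻⁷⁰` in the
interior of `E`. -/
theorem result (A : E2 ≃L[ℝ] E2) (b c : E2) (ε : ℝ) (hε : 0 < ε) (hε' : ε ≤ 1 / 10 ^ 70)
    (E H : Set E2) (hE : E = (fun x => A x + b) '' closedBall 0 1)
    (hH : H = (fun x => A x + b) '' closedBall c ε) (hHE : H ⊆ interior E)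
    (n : ℕ) (P : Fin n → Set E2) (u : Fin n → E2) (w : Fin n → ℝ)
    (hP : ∀ i, IsPlank (P i) (u i) (w i)) (hcov : E \ H ⊆ ⋃ i, P i) :
    1 ≤ ∑ i, w i / width E (u i) ∧
      (∀ m : ℝ, (∀ v : E2, ‖v‖ = 1 → m ≤ width E v) → m ≤ ∑ i, w i) ∧
      (E = closedBall 0 1 → 2 ≤ ∑ i, w i) := by
  subst hE hH
  choose hw hu a ha using hP
  have h1 : 1 ≤ ∑ i, w i / width ((fun x => A x + b) '' closedBall 0 1) (u i) := by
    apply Pool.Agent.Y512.Ann.ellipse A b ε hε hε' c hHE u a w hu hw
    intro x hx
    obtain ⟨i, hi⟩ := mem_iUnion.1 (hcov hx)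
    rw [ha i] at hi
    exact mem_iUnion.2 ⟨i, hi⟩
  have h2 : ∀ m : ℝ, (∀ v : E2, ‖v‖ = 1 → m ≤ width ((fun x => A x + b) '' closedBall 0 1) v) →
      m ≤ ∑ i, w i := by
    intro m hm
    have hnn : 0 ≤ ∑ i, w i := Finset.sum_nonneg fun i _ => (hw i).le
    rcases le_or_gt m 0 with h0 | h0
    · linarith
    · have h3 : ∑ i, w i / width ((fun x => A x + b) '' closedBall 0 1) (u i) ≤ ∑ i, w i / m := by
        refine Finset.sum_le_sum fun i _ => ?_
        exact div_le_div_of_nonneg_left (hw i).le h0 (hm (u i) (hu i))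
      rw [← Finset.sum_div] at h3
      have h4 := h1.trans h3
      rwa [le_div_iff₀ h0, one_mul] at h4
  refine ⟨h1, h2, fun hball => ?_⟩
  apply h2 2
  intro v hv
  rw [hball]
  have h5 := Pool.Agent.Y512.Ann.width_eq (ContinuousLinearEquiv.refl ℝ E2) 0 v
  have h6 : (fun x : E2 => (ContinuousLinearEquiv.refl ℝ E2) x + 0) '' closedBall 0 1 =
      closedBall 0 1 := by
    ext x; simp
  rw [h6] at h5
  have h7 : ContinuousLinearMap.adjoint
      ((ContinuousLinearEquiv.refl ℝ E2 : E2 ≃L[ℝ] E2) : E2 →L[ℝ] E2) v = v := by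
    apply ext_inner_left ℝ
    intro y
    rw [ContinuousLinearMap.adjoint_inner_right]
    rfl
  rw [h7, hv] at h5
  change 2 ≤ Pool.Agent.Y512.Ann.width (closedBall 0 1) v
  rw [h5]
  norm_num

end Pool.Agent.Results.MP_4a0204_co.EllipseAnnulus
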